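import Pool.Agent.Y7.EJ.Stm
import Pool.Agent.Y317.SK.Ibp

set_option autoImplicit false

/-!
# Project EJ: weak limit in H (job EJ-RF)
-/

open Set Filter Topology MeasureTheory Metric

namespace Pool.Agent.Y438.EJ

open Pool.Agent.Y5 (E3)
open Pool.Agent.Y303.SK
open Pool.Agent.Y317.SK (csu csc fs fs_cs)

theorem abs_rf {𝓗 : Type*} [NormedAddCommGroup 𝓗] [InnerProductSpace ℝ 𝓗] [CompleteSpace 𝓗]
    {ι : Type*} (E : ι → 𝓗) (hE : Orthonormal ℝ E) (Fl : Filter ℝ) [Fl.NeBot] (U : ℝ → 𝓗)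
    (hU : ∀ᶠ t in Fl, ‖U t‖ ≤ 1)
    (hl : ∀ i, ∃ l, Tendsto (fun t => inner ℝ (U t) (E i)) Fl (𝓝 l)) :
    ∃ V : 𝓗, (∀ ε > 0, ∃ (F : Finset ι) (b : ι → ℝ), ‖V - ∑ a ∈ F, b a • E a‖ < ε) ∧
      (∀ W, (∀ ε > 0, ∃ (F : Finset ι) (b : ι → ℝ), ‖W - ∑ a ∈ F, b a • E a‖ < ε) →
        Tendsto (fun t => inner ℝ (U t) W) Fl (𝓝 (inner ℝ V W))) ∧
      ∀ c : ℝ, (∀ F : Finset ι, ∑ i ∈ F, (inner ℝ V (E i)) ^ 2 ≤ c) → ‖V‖ ^ 2 ≤ c := by
  classical
  choose l hl using hl
  -- Bessel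
  have hb : ∀ F : Finset ι, ∑ i ∈ F, l i ^ 2 ≤ 1 := by
    intro F
    have h1 : Tendsto (fun t => ∑ i ∈ F, (inner ℝ (U t) (E i)) ^ 2) Fl (𝓝 (∑ i ∈ F, l i ^ 2)) :=
      tendsto_finsetSum _ fun i _ => (hl i).pow 2
    refine le_of_tendsto h1 ?_
    filter_upwards [hU] with t ht
    have h2 := hE.sum_inner_products_le (x := U t) (s := F)
    have h3 : ∑ i ∈ F, (inner ℝ (U t) (E i)) ^ 2 = ∑ i ∈ F, ‖inner ℝ (E i) (U t)‖ ^ 2 := by
      refine Finset.sum_congr rfl fun i _ => ?_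
      rw [real_inner_comm, Real.norm_eq_abs, sq_abs]
    rw [h3]
    refine h2.trans ?_
    exact pow_le_one₀ (norm_nonneg _) ht
  have hs2 : Summable fun i => ‖l i‖ ^ 2 := by
    refine summable_of_sum_le (fun i => by positivity) (c := 1) fun F => ?_
    simpa using hb F
  have hsum : Summable fun i => l i • E i := by
    have := (hE.orthogonalFamily.summable_iff_norm_sq_summable (fun i => l i)).2 hs2
    simpa using this
  obtain ⟨V, hV⟩ := hsum
  have hin : ∀ j, inner ℝ V (E j) = l j := by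
    intro j
    have h1 : HasSum (fun i => inner ℝ (E j) (l i • E i)) (inner ℝ (E j) V) :=
      (innerSL ℝ (E j)).hasSum hV
    have h2 : HasSum (fun i => inner ℝ (E j) (l i • E i)) (inner ℝ (E j) (l j • E j)) := by
      refine hasSum_single j fun i hi => ?_
      rw [inner_smul_right, hE.2 (Ne.symm hi), mul_zero]
    rw [real_inner_comm, h1.unique h2, inner_smul_right, real_inner_self_eq_norm_sq, hE.1 j]
    simp
  have hpart : ∀ ε > 0, ∃ F : Finset ι, ‖V - ∑ a ∈ F, l a • E a‖ < ε := by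
    intro ε hε
    have h1 := Metric.tendsto_nhds.1 hV ε hε
    obtain ⟨F, hF⟩ := h1.exists
    refine ⟨F, ?_⟩
    rw [← dist_eq_norm, dist_comm]
    exact hF
  have hcomb : ∀ (F : Finset ι) (b : ι → ℝ), Tendsto (fun t => inner ℝ (U t) (∑ a ∈ F, b a • E a))
      Fl (𝓝 (inner ℝ V (∑ a ∈ F, b a • E a))) := by
    intro F b
    simp only [inner_sum, inner_smul_right]
    refine tendsto_finsetSum _ fun i _ => ?_
    rw [hin]
    exact (hl i).const_mul _
  refine ⟨V, fun ε hε => ?_, fun W hW => ?_, fun c hc => ?_⟩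
  · obtain ⟨F, hF⟩ := hpart ε hε
    exact ⟨F, l, hF⟩
  · rw [Metric.tendsto_nhds]
    intro ε hε
    obtain ⟨δ, hδ⟩ : ∃ δ : ℝ, δ = ε / (2 * (2 + ‖V‖)) := ⟨_, rfl⟩
    have hV0 := norm_nonneg V
    have hδ0 : 0 < δ := by rw [hδ]; positivity
    have hδ1 : δ * (2 + ‖V‖) = ε / 2 := by
      rw [hδ]
      field_simp
    obtain ⟨F, b, hFb⟩ := hW δ hδ0
    have h1 := Metric.tendsto_nhds.1 (hcomb F b) (ε / 2) (by positivity)
    filter_upwards [h1, hU] with t ht hu
    rw [Real.dist_eq] at ht ⊢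
    obtain ⟨W', hW'⟩ : ∃ W', W' = ∑ a ∈ F, b a • E a := ⟨_, rfl⟩
    rw [← hW'] at ht hFb
    have e : inner ℝ (U t) W - inner ℝ V W = inner ℝ (U t) (W - W') +
        (inner ℝ (U t) W' - inner ℝ V W') - inner ℝ V (W - W') := by
      rw [inner_sub_right, inner_sub_right]
      ring
    have a1 : |inner ℝ (U t) (W - W')| ≤ δ := by
      refine (abs_real_inner_le_norm _ _).trans ?_
      calc ‖U t‖ * ‖W - W'‖ ≤ 1 * δ := mul_le_mul hu hFb.le (norm_nonneg _) zero_le_one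
        _ = δ := one_mul _
    have a2 : |inner ℝ V (W - W')| ≤ ‖V‖ * δ := by
      refine (abs_real_inner_le_norm _ _).trans ?_
      exact mul_le_mul_of_nonneg_left hFb.le hV0
    rw [e]
    calc |inner ℝ (U t) (W - W') + (inner ℝ (U t) W' - inner ℝ V W') - inner ℝ V (W - W')|
        ≤ |inner ℝ (U t) (W - W') + (inner ℝ (U t) W' - inner ℝ V W')| +
          |inner ℝ V (W - W')| := abs_sub _ _
      _ ≤ (|inner ℝ (U t) (W - W')| + |inner ℝ (U t) W' - inner ℝ V W'|) +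
          |inner ℝ V (W - W')| := by
          gcongr
          exact abs_add_le _ _
      _ < ε := by nlinarith
  · have h1 : Tendsto (fun F : Finset ι => ‖∑ i ∈ F, l i • E i‖ ^ 2) atTop (𝓝 (‖V‖ ^ 2)) :=
      (hV.norm).pow 2
    refine le_of_tendsto h1 (Eventually.of_forall fun F => ?_)
    rw [← real_inner_self_eq_norm_sq, hE.inner_sum]
    refine le_trans (le_of_eq ?_) (hc F)
    refine Finset.sum_congr rfl fun i _ => ?_
    rw [hin]
    simp [sq]

theorem cs_memLp {Ω : Set E3} {v : E3 → E3} (h : CS Ω v) : MemLp v 2 volume :=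
  (h.smooth.continuous).memLp_of_hasCompactSupport h.cpt

open Classical in
/-- the class in `L²` -/
noncomputable def Tl (f : E3 → E3) : Lp E3 2 (volume : Measure E3) :=
  if h : MemLp f 2 volume then h.toLp f else 0

theorem Tl_eq {f : E3 → E3} (h : MemLp f 2 volume) : Tl f = h.toLp f := by
  unfold Tl
  rw [dif_pos h]

theorem Tl_coe (V : Lp E3 2 (volume : Measure E3)) : Tl (V : E3 → E3) = V := by
  rw [Tl_eq (Lp.memLp V), Lp.toLp_coeFn]

theorem Tl_inner {f g : E3 → E3} (hf : MemLp f 2 volume) (hg : MemLp g 2 volume) :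
    inner ℝ (Tl f) (Tl g) = ipr f g := by
  rw [Tl_eq hf, Tl_eq hg, L2.inner_def]
  unfold ipr
  refine integral_congr_ae ?_
  filter_upwards [hf.coeFn_toLp, hg.coeFn_toLp] with x h1 h2
  rw [h1, h2]

theorem Tl_sub {f g : E3 → E3} (hf : MemLp f 2 volume) (hg : MemLp g 2 volume) :
    Tl (fun x => f x - g x) = Tl f - Tl g := by
  have h1 : MemLp (fun x => f x - g x) 2 volume := hf.sub hg
  rw [Tl_eq hf, Tl_eq hg, Tl_eq h1, ← MemLp.toLp_sub]
  rfl

theorem Tl_norm {f : E3 → E3} (hf : MemLp f 2 volume) : ‖Tl f‖ ^ 2 = ipr f f := by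
  rw [← real_inner_self_eq_norm_sq, Tl_inner hf hf]

theorem Tl_dist {f g : E3 → E3} (hf : MemLp f 2 volume) (hg : MemLp g 2 volume) :
    ‖Tl f - Tl g‖ ^ 2 = ∫ x, ‖f x - g x‖ ^ 2 := by
  have h1 : MemLp (fun x => f x - g x) 2 volume := hf.sub hg
  rw [← Tl_sub hf hg, Tl_norm h1]
  unfold ipr
  simp only [real_inner_self_eq_norm_sq]

theorem fs_memLp {ι : Type} {e : ι → E3 → E3} (he : ∀ i, MemLp (e i) 2 volume) (F : Finset ι)
    (b : ι → ℝ) : MemLp (fun x => ∑ a ∈ F, b a • e a x) 2 volume :=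
  memLp_finsetSum F fun i _ => (he i).const_smul (b i)

theorem Tl_sum {ι : Type} {e : ι → E3 → E3} (he : ∀ i, MemLp (e i) 2 volume) (F : Finset ι)
    (b : ι → ℝ) : Tl (fun x => ∑ a ∈ F, b a • e a x) = ∑ a ∈ F, b a • Tl (e a) := by
  classical
  induction F using Finset.induction_on with
  | empty =>
    simp only [Finset.sum_empty]
    have h0 : MemLp (fun _ : E3 => (0 : E3)) 2 volume := MemLp.zero
    rw [Tl_eq h0]
    exact MemLp.toLp_zero _
  | insert i F hi ih =>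
    rw [Finset.sum_insert hi, ← ih]
    have h1 : (fun x => ∑ a ∈ insert i F, b a • e a x) =
        fun x => b i • e i x + ∑ a ∈ F, b a • e a x := by
      funext x
      rw [Finset.sum_insert hi]
    rw [h1, Tl_eq (he i), Tl_eq (fs_memLp he F b), ← MemLp.toLp_const_smul, ← MemLp.toLp_add]
    exact Tl_eq (((he i).const_smul (b i)).add (fs_memLp he F b))

theorem fs_cs' {ι : Type} {Ω : Set E3} {e : ι → E3 → E3} (he : ∀ i, CS Ω (e i)) (F : Finset ι)
    (b : ι → ℝ) : CS Ω (fun x => ∑ a ∈ F, b a • e a x) := by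
  have h1 := fs_cs (fun a => csu (he a)) F b
  refine ⟨h1.smooth, h1.cpt, ?_, h1.dv⟩
  have h2 : tsupport (fun x => ∑ a ∈ F, b a • e a x) ⊆ ⋃ a ∈ F, tsupport (e a) := by
    refine closure_minimal ?_ ?_
    · intro x hx
      by_contra hcon
      rw [mem_iUnion₂] at hcon
      push Not at hcon
      apply hx
      show ∑ a ∈ F, b a • e a x = 0
      refine Finset.sum_eq_zero fun a ha => ?_
      rw [image_eq_zero_of_notMem_tsupport (hcon a ha), smul_zero]
    · exact isClosed_biUnion_finset fun a _ => isClosed_tsupport _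
  refine h2.trans (iUnion₂_subset fun a _ => (he a).supp)

theorem t_RF : Pool.Agent.Y7.EJ.S_RF := by
  intro Ω ι e T u _ _ _ he ho hc hT hu hu1 hl
  have hem : ∀ i, MemLp (e i) 2 volume := fun i => cs_memLp (he i)
  have hE : Orthonormal ℝ fun i => Tl (e i) := by
    refine ⟨fun i => ?_, fun i j hij => ?_⟩
    · have h1 := Tl_norm (hem i)
      rw [(ho i i).1 rfl] at h1
      have h2 := norm_nonneg (Tl (e i))
      nlinarith
    · show inner ℝ (Tl (e i)) (Tl (e j)) = 0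
      rw [Tl_inner (hem i) (hem j)]
      exact (ho i j).2 hij
  have hev : ∀ᶠ t in 𝓝[<] T, t ∈ Ico 0 T := Ico_mem_nhdsLT hT
  obtain ⟨V, hV1, hV2, hV3⟩ := abs_rf (fun i => Tl (e i)) hE (𝓝[<] T) (fun t => Tl (u t)) (by
      filter_upwards [hev] with t ht
      have h1 := Tl_norm (hu t ht).1
      have h2 := hu1 t ht
      rw [← h1] at h2
      have h3 := norm_nonneg (Tl (u t))
      nlinarith) (fun i => by
      obtain ⟨l, hl⟩ := hl i
      refine ⟨l, hl.congr' ?_⟩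
      filter_upwards [hev] with t ht
      rw [Tl_inner (hu t ht).1 (hem i)])
  have hVm : MemLp (V : E3 → E3) 2 volume := Lp.memLp V
  have hVT : Tl (V : E3 → E3) = V := Tl_coe V
  refine ⟨V, ⟨hVm, fun ε hε => ?_⟩, fun w hw => ?_, fun c hcc => ?_⟩
  · obtain ⟨F, b, hFb⟩ := hV1 (√ε) (Real.sqrt_pos.2 hε)
    refine ⟨fun x => ∑ a ∈ F, b a • e a x, fs_cs' he F b, ?_⟩
    rw [← Tl_dist hVm (fs_memLp hem F b), hVT, Tl_sum hem]
    rw [← Real.sq_sqrt hε.le]
    exact pow_lt_pow_left₀ hFb (norm_nonneg _) two_ne_zero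
  · have h1 := hV2 (Tl w) (fun ε hε => by
      obtain ⟨w1, hw1, hd1⟩ := hw.2 ((ε / 2) ^ 2) (by positivity)
      obtain ⟨F, b, hd2⟩ := hc w1 hw1 ((ε / 2) ^ 2) (by positivity)
      refine ⟨F, b, ?_⟩
      rw [← Tl_dist hw.1 (cs_memLp hw1)] at hd1
      rw [← Tl_dist (cs_memLp hw1) (fs_memLp hem F b), Tl_sum hem] at hd2
      have a1 : ‖Tl w - Tl w1‖ < ε / 2 := lt_of_pow_lt_pow_left₀ 2 (by positivity) hd1
      have a2 : ‖Tl w1 - ∑ a ∈ F, b a • Tl (e a)‖ < ε / 2 :=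
        lt_of_pow_lt_pow_left₀ 2 (by positivity) hd2
      calc ‖Tl w - ∑ a ∈ F, b a • Tl (e a)‖ =
          ‖(Tl w - Tl w1) + (Tl w1 - ∑ a ∈ F, b a • Tl (e a))‖ := by congr 1; abel
        _ ≤ ‖Tl w - Tl w1‖ + ‖Tl w1 - ∑ a ∈ F, b a • Tl (e a)‖ := norm_add_le _ _
        _ < ε := by linarith)
    have h2 : inner ℝ V (Tl w) = ipr (V : E3 → E3) w := by
      rw [← Tl_inner hVm hw.1, hVT]
    rw [h2] at h1
    refine h1.congr' ?_
    filter_upwards [hev] with t ht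
    exact Tl_inner (hu t ht).1 hw.1
  · have h1 := hV3 c (fun F => by
      refine le_trans (le_of_eq ?_) (hcc F)
      refine Finset.sum_congr rfl fun i _ => ?_
      rw [← Tl_inner hVm (hem i), hVT])
    rwa [← Tl_norm hVm, hVT]

end Pool.Agent.Y438.EJ
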